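import Mathlib
import Pool.Agent.Helper53.HomStmt
import Pool.Agent.Helper53.HomH

set_option autoImplicit false

namespace Pool.Agent.Results.MP_1618a1_an.DimSets

open Pool.Agent.Helper53.Homology

/-- The number 3 is the global dimension of some Banach function algebra and the bidimension of
some Banach function algebra. -/
theorem result : (3 : ℕ∞) ∈ Mg ∧ (3 : ℕ∞) ∈ Mb :=
  ⟨⟨algFA, dg_alg⟩, ⟨algFA, db_alg⟩⟩

end Pool.Agent.Results.MP_1618a1_an.DimSets
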